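import Pool.Agent.helper37.NA.Spec

/-!
# Project NA (MP_baa4d7_al), row NTN: the chain sum
-/

set_option autoImplicit false

namespace Pool.Agent.NAB

open Pool.Agent.helper58.DC Pool.Agent.DI Pool.Agent.GR Pool.Agent.OB Pool.Agent.DR Pool.Agent.FI Pool.Agent.FI3 Pool.Agent.FI4 Pool.Agent.FI4I Pool.Agent.LE Pool.Agent.L5

/-- casting an alternating sum over chains -/
theorem NTN_cast {G : Type} [Group G] [Finite G] (A : Set (Finset (Subgroup G))) (f : Finset (Subgroup G) → ℤ) :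
    ((∑ᶠ C ∈ A, (-1) ^ (C.card + 1) * f C : ℤ) : ℂ) = ∑ᶠ C ∈ A, (-1 : ℂ) ^ (C.card + 1) * (f C : ℂ) := by
  have hfin : A.Finite := Set.toFinite _
  rw [finsum_mem_eq_finite_toFinset_sum _ hfin, finsum_mem_eq_finite_toFinset_sum _ hfin]
  push_cast
  rfl

theorem NTN_single {G : Type} [Group G] {p : ℕ} {R : Subgroup G} (hRp : IsPGroup p R) :
    PCh p ⊤ R {R} where
  chain := by
    rw [Finset.coe_singleton]
    exact Set.subsingleton_singleton.isChain
  mem := Finset.mem_singleton_self R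
  bot := fun Q hQ => (Finset.mem_singleton.1 hQ).symm.le
  le := fun _ _ => le_top
  pg := fun Q hQ => by
    rw [Finset.mem_singleton.1 hQ]
    exact hRp

theorem NTN_nrm {G : Type} [Group G] (R : Subgroup G) : nrm ({R} : Finset (Subgroup G)) = nz R := by
  unfold nrm
  simp only [Finset.mem_singleton, iInf_iInf_eq_left]

theorem NTN_ne {G : Type} [Group G] {p : ℕ} {R : Subgroup G} (hR : IsOp p (⊤ : Subgroup G) R)
    {C : Finset (Subgroup G)} (hC : PCh p ⊤ R C) (hne : C ≠ {R}) : nrm C ≠ ⊤ := by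
  intro h
  apply hne
  refine Finset.eq_singleton_iff_unique_mem.2 ⟨hC.mem, fun Q hQ => ?_⟩
  refine le_antisymm (hR.2 ⟨le_top, hC.pg Q hQ, ?_⟩) (hC.bot Q hQ)
  rw [← h]
  exact iInf₂_le Q hQ

theorem NTN (hNTM : NTM_stmt) (hNLC : NLC_stmt) (hFNO : FNO_stmt) (hLBN : LBN_stmt)
    (hTPR : Pool.Agent.FI.TPR_stmt) : NTN_stmt := by
  intro p e m M hM hme G _ _ χ hχ z x hU R hR hER hind
  have : Fact p.Prime := ⟨hM.pr⟩
  have hRp : IsPGroup p R := hR.1.2.1
  have hRnz : nz R = ⊤ := top_le_iff.1 hR.1.2.2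
  have h1 := hFNO G p ⊤ R ⊤ (fun N => (Nat.card N : ℤ) * (lb p M χ N : ℤ)) hRp le_top
  unfold cSum at h1
  simp only [top_inf_eq] at h1
  have h2 := congrArg (Int.cast : ℤ → ℂ) h1
  rw [NTN_cast _ (fun C => (Nat.card (nrm C) : ℤ) * (lb p M χ (nrm C) : ℤ)),
    NTN_cast _ (fun C => (Nat.card (nrm C) : ℤ) * (lb p M χ (nrm C) : ℤ))] at h2
  have h3 : ∀ C : Finset (Subgroup G), (((Nat.card (nrm C) : ℤ) * (lb p M χ (nrm C) : ℤ) : ℤ) : ℂ) =
      (Nat.card (nrm C) : ℂ) * LL p M χ (nrm C) := by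
    intro C
    rw [← lb_eq_LL hLBN p M hM G (nrm C) χ]
    push_cast
    rfl
  simp only [h3] at h2
  rw [← h2]
  -- the term of the chain with one term
  have hset : {C : Finset (Subgroup G) | PCh p ⊤ R C} =
      insert {R} {C : Finset (Subgroup G) | PCh p ⊤ R C ∧ C ≠ {R}} := by
    ext C
    simp only [Set.mem_ofPred_eq, Set.mem_insert_iff]
    constructor
    · intro h
      by_cases hC : C = {R}
      · exact Or.inl hC
      · exact Or.inr ⟨h, hC⟩
    · rintro (h | h)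
      · rw [h]
        exact NTN_single hRp
      · exact h.1
  rw [hset, finsum_mem_insert _ (fun h => h.2 rfl) (Set.toFinite _)]
  have h4 : LL p M χ ⊤ = Le p M (⊤ : Subgroup G) χ := by
    unfold LL Le
    rw [(hTPR p M hM G).2.2.2.1 χ ⊤]
    rfl
  have h5 : (-1 : ℂ) ^ (({R} : Finset (Subgroup G)).card + 1) *
      ((Nat.card (nrm ({R} : Finset (Subgroup G))) : ℂ) * LL p M χ (nrm ({R} : Finset (Subgroup G)))) =
      (Nat.card G : ℂ) * Le p M (⊤ : Subgroup G) χ := by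
    rw [NTN_nrm, hRnz, h4, Subgroup.card_top, Finset.card_singleton]
    norm_num
  have h6 : ∑ᶠ C ∈ {C : Finset (Subgroup G) | PCh p ⊤ R C ∧ C ≠ {R}}, (-1 : ℂ) ^ (C.card + 1) *
      ((Nat.card (nrm C) : ℂ) * LL p M χ (nrm C)) =
      - ((Nat.card G : ℂ) * lE p e m M (⊤ : Subgroup G) (nz (Eg p e z)) (Eg p e z) χ) := by
    rw [← hNTM p e m M hM hme G χ hχ z x hU R hRp hRnz hER]
    refine finsum_mem_congr rfl fun C hC => ?_
    rw [hNLC p e m M hM hme G χ hχ z x hU (nrm C) (hind _ (NTN_ne hR hC.1 hC.2))]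
  rw [h5, h6]
  ring

end Pool.Agent.NAB
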