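import Pool.Agent.helper2.NTU.Main
import Pool.Agent.helper36.NA.SpecW
import Pool.Agent.helper3.NA.StepH
import Pool.Agent.helper55.NA.RRR

/-!
# MP_c8d30a (A), section 5 at state level: lists and the bridge to `NTU.RR`
-/

set_option autoImplicit false

namespace NAW

open NTH NA

universe u
variable {Ω : Type u}

/-! ## the bridge -/

theorem flatMap_rot {α β : Type*} (g : α → List β) {a b : List α} (h : a ~r b) : a.flatMap g ~r b.flatMap g := by
  obtain ⟨x, y, rfl, rfl⟩ := NTU.rotated_exists h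
  rw [List.flatMap_append, List.flatMap_append]
  exact List.isRotated_append

theorem flatMap_flatten' {α β : Type*} (g : α → List β) (rs : List (List α)) :
    (rs.flatten).flatMap g = (rs.map (fun r => r.flatMap g)).flatten := by
  induction rs with
  | nil => simp
  | cons r rs ih => simp [List.flatMap_append, ih]

theorem flatMap_id' {α : Type*} (g : α → List α) (l : List α) (h : ∀ z ∈ l, g z = [z]) : l.flatMap g = l := by
  induction l with
  | nil => simp
  | cons a l ih =>
    rw [List.flatMap_cons, h a (by simp), ih (fun z hz => h z (by simp [hz]))]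
    rfl

theorem single_flatten {α : Type*} (l : List α) : (l.map (fun x => [x])).flatten = l := by
  induction l with
  | nil => rfl
  | cons x l ih => rw [List.map_cons, List.flatten_cons, ih]; rfl

/-- the bridge from the inductive definition to the one with runs. -/
theorem ntu_rr {a b : List Ω} (h : NA.RR a b) : a.Nodup → b.Nodup → NTU.RR a b := by
  classical
  induction h with
  | rev a b h =>
    intro _ _
    refine ⟨a.map (fun x => [x]), ?_, ?_⟩
    · rw [single_flatten]
    · rw [← List.map_reverse, single_flatten]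
      exact h
  | fix x y a b a' b' ha hb h ih =>
    intro hna hnb
    have h1 : (x :: y :: a).Nodup := ha.nodup_iff.1 hna
    have h2 : (x :: y :: b).Nodup := hb.nodup_iff.1 hnb
    obtain ⟨rs, h3, h4⟩ := ih (List.nodup_cons.1 h1).2 (List.nodup_cons.1 h2).2
    let g : Ω → List Ω := fun z => if z = y then [x, y] else [z]
    have key : ∀ l : List Ω, (y :: l).Nodup → (y :: l).flatMap g = x :: y :: l := by
      intro l hl
      rw [List.flatMap_cons, flatMap_id' g l]
      · simp [g]
      · intro z hz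
        have : z ≠ y := by
          rintro rfl
          exact (List.nodup_cons.1 hl).1 hz
        simp [g, this]
    refine ⟨rs.map (fun r => r.flatMap g), ?_, ?_⟩
    · rw [← flatMap_flatten']
      have := flatMap_rot g h3
      rw [key a (List.nodup_cons.1 h1).2] at this
      exact ha.trans this
    · rw [← List.map_reverse, ← flatMap_flatten']
      have := flatMap_rot g h4
      rw [key b (List.nodup_cons.1 h2).2] at this
      exact hb.trans this

/-! ## adjacent tokens and blocks -/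

/-- `a` is directly before `v` in `W`. -/
def Adj (W : List Ω) (a v : Ω) : Prop := ∃ P Q : List Ω, W = P ++ a :: v :: Q

theorem adj_of_mem {Zs : List (List Ω)} {Z : List Ω} (hZ : Z ∈ Zs) {a v : Ω} (h : Adj Z a v) : Adj Zs.flatten a v := by
  obtain ⟨S, T, rfl⟩ := List.append_of_mem hZ
  obtain ⟨P, Q, rfl⟩ := h
  exact ⟨S.flatten ++ P, Q ++ T.flatten, by simp⟩

theorem cases_block {Zs : List (List Ω)} {v : Ω} (hv : v ∈ Zs.flatten) :
    (∃ Z ∈ Zs, ∃ a, Adj Z a v) ∨ ∃ Q, v :: Q ∈ Zs := by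
  obtain ⟨Z, hZ, hv⟩ := List.mem_flatten.1 hv
  obtain ⟨P, Q, rfl⟩ := List.append_of_mem hv
  rcases List.eq_nil_or_concat P with rfl | ⟨P', a, rfl⟩
  · exact Or.inr ⟨Q, by simpa using hZ⟩
  · exact Or.inl ⟨_, hZ, a, P', Q, by simp⟩

/-- the block before a block. -/
theorem block_before {Z0 : List Ω} {Zs : List (List Ω)} (h0 : ∀ Z ∈ Z0 :: Zs, Z ≠ []) {v : Ω} {Q : List Ω} (hv : v :: Q ∈ Zs) :
    ∃ Z ∈ (Z0 :: Zs).dropLast, ∃ (P : List Ω) (a : Ω), Z = P ++ [a] ∧ Adj (Z0 :: Zs).flatten a v := by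
  obtain ⟨S, T, rfl⟩ := List.append_of_mem hv
  rcases List.eq_nil_or_concat (Z0 :: S) with h | ⟨S', Z, h⟩
  · exact absurd h (by simp)
  · have hZ : Z ∈ Z0 :: S := by rw [h]; simp
    have hZ' : Z ∈ Z0 :: (S ++ (v :: Q) :: T) := by
      rw [List.mem_cons] at hZ ⊢
      rcases hZ with hZ | hZ
      · exact Or.inl hZ
      · exact Or.inr (by simp [hZ])
    rcases List.eq_nil_or_concat Z with h1 | ⟨P, a, h1⟩
    · exact absurd h1 (h0 Z hZ')
    · rw [List.concat_eq_append] at h1
      refine ⟨Z, ?_, P, a, h1, ?_⟩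
      · have e : (Z0 :: (S ++ (v :: Q) :: T)) = (Z0 :: S) ++ (v :: Q) :: T := by simp
        rw [e, List.dropLast_append_of_ne_nil (by simp)]
        simp only [List.mem_append]
        exact Or.inl hZ
      · have e : (Z0 :: (S ++ (v :: Q) :: T)) = (Z0 :: S) ++ (v :: Q) :: T := by simp
        rw [e, h, h1]
        exact ⟨S'.flatten ++ P, Q ++ T.flatten, by simp⟩

/-- the block after a block. -/
theorem block_after {Zs : List (List Ω)} (h0 : ∀ Z ∈ Zs, Z ≠ []) {Z : List Ω} (hZ : Z ∈ Zs.dropLast) {P : List Ω} {a : Ω}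
    (h1 : Z = P ++ [a]) : ∃ (v : Ω) (Q : List Ω), v :: Q ∈ Zs.tail ∧ Adj Zs.flatten a v := by
  obtain ⟨S, T, h2⟩ := List.append_of_mem hZ
  rcases List.eq_nil_or_concat Zs with h | ⟨Ys, L, h⟩
  · subst h; simp at hZ
  · rw [List.concat_eq_append] at h
    subst h
    rw [List.dropLast_concat] at h2 hZ
    subst h2
    cases hT : T ++ [L] with
    | nil => simp at hT
    | cons Z' T' =>
      have hm : Z' ∈ (S ++ Z :: T) ++ [L] := by
        have : Z' ∈ T ++ [L] := by rw [hT]; simp
        simp only [List.mem_append, List.mem_cons] at this ⊢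
        tauto
      cases hZ' : Z' with
      | nil => exact absurd hZ' (h0 Z' hm)
      | cons v Q =>
        refine ⟨v, Q, ?_, ?_⟩
        · have e : ((S ++ Z :: T) ++ [L]) = S ++ Z :: (T ++ [L]) := by simp
          rw [e, hT]
          cases S with
          | nil => simp [hZ']
          | cons s S => simp [hZ']
        · have e : ((S ++ Z :: T) ++ [L]) = S ++ Z :: (T ++ [L]) := by simp
          rw [e, hT, h1, hZ']
          exact ⟨S.flatten ++ P, Q ++ T'.flatten, by simp⟩

/-- the permutation of blocks. -/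
theorem blk {S : Ω → Prop} {c : Ω} {X0 Z6 : List Ω} {Ys Ys' : List (List Ω)} (hY : Ys'.Perm Ys)
    (hS : ∀ Z ∈ Ys ++ [Z6], ∃ v, S v ∧ ∃ Q, Z = v :: Q) {W W' : List Ω} (hW : W = c :: X0 ++ Ys.flatten ++ Z6)
    (hW' : W' = c :: X0 ++ Ys'.flatten ++ Z6) :
    W'.Perm W ∧ ∀ v ∈ W, v ≠ c → (¬ S v → ∃ a, Adj W a v ∧ Adj W' a v) ∧ (S v → ∃ a v', S v' ∧ Adj W' a v ∧ Adj W a v') := by
  have e : W = ((c :: X0) :: (Ys ++ [Z6])).flatten := by rw [hW]; simp
  have e' : W' = ((c :: X0) :: (Ys' ++ [Z6])).flatten := by rw [hW']; simp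
  have hne : ∀ Z ∈ (c :: X0) :: (Ys ++ [Z6]), Z ≠ [] := by
    intro Z hZ
    rw [List.mem_cons] at hZ
    rcases hZ with rfl | hZ
    · simp
    · obtain ⟨v, _, Q, rfl⟩ := hS Z hZ
      simp
  have hmem : ∀ Z, Z ∈ Ys' ++ [Z6] ↔ Z ∈ Ys ++ [Z6] := by
    intro Z
    simp only [List.mem_append, hY.mem_iff]
  have hne' : ∀ Z ∈ (c :: X0) :: (Ys' ++ [Z6]), Z ≠ [] := by
    intro Z hZ
    refine hne Z ?_
    rw [List.mem_cons, hmem] at hZ
    exact List.mem_cons.2 hZ
  have hhead : ∀ v Q, v :: Q ∈ Ys ++ [Z6] → S v := by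
    intro v Q h
    obtain ⟨v', hv', Q', h'⟩ := hS _ h
    rw [List.cons.injEq] at h'
    rw [h'.1]
    exact hv'
  refine ⟨?_, ?_⟩
  · rw [hW, hW']
    exact ((List.Perm.refl _).append hY.flatten).append (List.Perm.refl _)
  · intro v hv hvc
    have hv2 := hv
    rw [e] at hv2
    have case1 : (∃ Z ∈ (c :: X0) :: (Ys ++ [Z6]), ∃ a, Adj Z a v) → ∃ a, Adj W a v ∧ Adj W' a v := by
      rintro ⟨Z, hZ, a, ha⟩
      refine ⟨a, ?_, ?_⟩
      · rw [e]; exact adj_of_mem hZ ha
      · rw [e']
        refine adj_of_mem (Z := Z) ?_ ha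
        rw [List.mem_cons] at hZ ⊢
        rcases hZ with hZ | hZ
        · exact Or.inl hZ
        · exact Or.inr ((hmem Z).2 hZ)
    rcases cases_block hv2 with h | ⟨Q, hQ⟩
    · obtain ⟨a, h1, h2⟩ := case1 h
      exact ⟨fun _ => ⟨a, h1, h2⟩, fun hs => ⟨a, v, hs, h2, h1⟩⟩
    · rw [List.mem_cons] at hQ
      rcases hQ with hQ | hQ
      · rw [List.cons.injEq] at hQ
        exact absurd hQ.1 hvc
      · have hs := hhead v Q hQ
        refine ⟨fun h => absurd hs h, fun _ => ?_⟩
        obtain ⟨Z, hZ, P, a, h1, h2⟩ := block_before hne' ((hmem _).2 hQ)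
        have hZ2 : Z ∈ ((c :: X0) :: (Ys ++ [Z6])).dropLast := by
          have e1 : ((c :: X0) :: (Ys ++ [Z6])) = ((c :: X0) :: Ys) ++ [Z6] := by simp
          have e2 : ((c :: X0) :: (Ys' ++ [Z6])) = ((c :: X0) :: Ys') ++ [Z6] := by simp
          rw [e1, List.dropLast_concat]
          rw [e2, List.dropLast_concat] at hZ
          rw [List.mem_cons] at hZ ⊢
          rcases hZ with hZ | hZ
          · exact Or.inl hZ
          · exact Or.inr (hY.mem_iff.1 hZ)
        obtain ⟨v', Q', h3, h4⟩ := block_after hne hZ2 h1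
        rw [List.tail_cons] at h3
        refine ⟨a, v', hhead v' Q' h3, ?_, ?_⟩
        · rw [e']; exact h2
        · rw [e]; exact h4

end NAW
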