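import Pool.Agent.helper2.NA.UNL

/-!
# MP_c8d30a (A), section 5 at state level: `UNR` and `UNB`
-/

set_option autoImplicit false

namespace NAW

open NTH NA

universe u
variable {Ω : Type u} [DecidableEq Ω] {p : Ω → Ω}

theorem adj_sc_A {s : St Ω} (hn : (s.1 ++ s.2).Nodup) {a v : Ω} (h : Adj s.1 a v) : sc s a = v := by
  obtain ⟨P, Q, h⟩ := h
  have ha : a ∈ s.1 := by rw [h]; simp
  rw [sc_A hn ha]
  have hn1 := (List.nodup_append.1 hn).1
  rw [h] at hn1 ⊢
  exact formPerm_adj hn1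

theorem adj_sc_B {s : St Ω} (hn : (s.1 ++ s.2).Nodup) {a v : Ω} (h : Adj s.2 a v) : sc s a = v := by
  obtain ⟨P, Q, h⟩ := h
  have ha : a ∈ s.2 := by rw [h]; simp
  rw [sc_B hn ha]
  have hn1 := (List.nodup_append.1 hn).2.1
  rw [h] at hn1 ⊢
  exact formPerm_adj hn1

theorem fm_red (B l : List Ω) :
    l.filterMap (fun x => if p x ∈ B then some x else none) = l.filter (fun t => decide (p t ∈ B)) := by
  induction l with
  | nil => rfl
  | cons a l ih =>
    by_cases h : p a ∈ B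
    · simp [h, ih]
    · simp [h, ih]

theorem fm_blue (A l : List Ω) :
    l.filterMap (fun x => if p x ∈ A then some (p x) else none) = (l.filter (fun t => decide (p t ∈ A))).map p := by
  induction l with
  | nil => rfl
  | cons a l ih =>
    by_cases h : p a ∈ A
    · simp [h, ih]
    · simp [h, ih]

theorem cA_nodup {s : St Ω} (hw : WF p s) : (cA p s).Nodup := (List.nodup_append.1 hw.nd).1.filter _

theorem cB_nodup {s : St Ω} (hw : WF p s) : (cB p s).Nodup := by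
  refine List.Nodup.map ?_ ((List.nodup_append.1 hw.nd).2.1.filter _)
  intro a b h
  rw [← hw.inv a, h, hw.inv]

/-- one token of each letter of `S`. -/
theorem exF (hinv : ∀ t, p (p t) = t) (hne : ∀ t, p t ≠ t) {A : List Ω} {S : Finset Ω} (hSA : ∀ t ∈ S, t ∈ A)
    (hSp : ∀ t ∈ S, p t ∈ S) (h38 : 38 ≤ S.card) :
    ∃ F : List Ω, F.Nodup ∧ (∀ t ∈ F, t ∈ S ∧ p t ∉ F) ∧ 19 ≤ F.length := by
  have hF0 : ∀ t, t ∈ S.filter (fun t => A.idxOf t < A.idxOf (p t)) ↔ t ∈ S ∧ A.idxOf t < A.idxOf (p t) :=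
    fun t => Finset.mem_filter
  refine ⟨(S.filter (fun t => A.idxOf t < A.idxOf (p t))).toList, Finset.nodup_toList _, ?_, ?_⟩
  · intro t ht
    rw [Finset.mem_toList, hF0] at ht
    refine ⟨ht.1, ?_⟩
    rw [Finset.mem_toList, hF0, hinv]
    intro h
    exact absurd ht.2 (not_lt.2 h.2.le)
  · rw [Finset.length_toList]
    have h1 : S ⊆ S.filter (fun t => A.idxOf t < A.idxOf (p t)) ∪ (S.filter (fun t => A.idxOf t < A.idxOf (p t))).image p := by
      intro t ht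
      have h2 : A.idxOf t ≠ A.idxOf (p t) := by
        intro h
        exact hne t ((List.idxOf_inj (hSA t ht)).1 h).symm
      rw [Finset.mem_union, Finset.mem_image]
      rcases lt_or_gt_of_ne h2 with h | h
      · exact Or.inl ((hF0 t).2 ⟨ht, h⟩)
      · exact Or.inr ⟨p t, (hF0 _).2 ⟨hSp t ht, by rw [hinv]; exact h⟩, hinv t⟩
    have h3 := Finset.card_le_card h1
    have h4 := Finset.card_union_le (S.filter (fun t => A.idxOf t < A.idxOf (p t))) ((S.filter (fun t => A.idxOf t < A.idxOf (p t))).image p)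
    have h5 : ((S.filter (fun t => A.idxOf t < A.idxOf (p t))).image p).card ≤ (S.filter (fun t => A.idxOf t < A.idxOf (p t))).card := Finset.card_image_le
    omega

/-! ## red -/

theorem cB_congr {A A' B : List Ω} (h : A'.Perm A) : cB p (A', B) = cB p (A, B) := by
  unfold cB
  congr 1
  refine List.filter_congr fun t _ => ?_
  simp only [h.mem_iff]

theorem cA_congr {A B B' : List Ω} (h : B'.Perm B) : cA p (A, B') = cA p (A, B) := by
  unfold cA
  refine List.filter_congr fun t _ => ?_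
  simp only [h.mem_iff]

theorem red_fin {c : Ω} {X0 Z6 A A' B : List Ω} {Ys Ys' : List (List Ω)} {S : Finset Ω} (hw : WF p (A, B))
    (hc : MA p (A, B) c) (hS : ∀ t ∈ S, MA p (A, B) (pd (A, B) t) ∧ Red p (A, B) t)
    (hpa : Pa p 4 (A, B) (A', B)) (hcore : ¬ NTU.RR (cA p (A', B)) (cB p (A, B))) (hY : Ys'.Perm Ys)
    (hZ : ∀ Z ∈ Ys ++ [Z6], ∃ v, v ∈ S ∧ ∃ Q, Z = v :: Q) (hA : A = c :: X0 ++ Ys.flatten ++ Z6)
    (hA' : A' = c :: X0 ++ Ys'.flatten ++ Z6) :
    ∃ t, Pa p 4 (A, B) t ∧ t.2 = B ∧ t.1.Perm A ∧ ¬ NA.RR (cA p t) (cB p t) ∧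
    (∀ v, Red p (A, B) v → v ∉ S → pd t v = pd (A, B) v) ∧ (∀ v ∈ S, MA p t (pd t v)) := by
  obtain ⟨hP, hb⟩ := blk (S := fun v => v ∈ S) hY hZ hA hA'
  have hw' : WF p (A', B) := hpa.wf hw
  have hdj : ∀ a, a ∈ A → a ∉ B := fun a ha hb => (List.nodup_append.1 hw.nd).2.2 a ha a hb rfl
  have hvc : ∀ v, Red p (A, B) v → v ≠ c := by
    rintro v hv rfl
    exact hdj _ hv.2 hc.2
  refine ⟨(A', B), hpa, rfl, hP, ?_, ?_, ?_⟩
  · intro h
    have h1 := ntu_rr h (cA_nodup hw') (cB_nodup hw')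
    rw [cB_congr hP] at h1
    exact hcore h1
  · intro v hv hvS
    obtain ⟨a, h1, h2⟩ := (hb v hv.1 (hvc v hv)).1 hvS
    have e1 : sc (A, B) a = v := adj_sc_A hw.nd h1
    have e2 : sc (A', B) a = v := adj_sc_A hw'.nd h2
    rw [pd_of_sc e1, pd_of_sc e2]
  · intro v hvS
    obtain ⟨a, v', hv', h2, h1⟩ := (hb v (hS v hvS).2.1 (hvc v (hS v hvS).2)).2 hvS
    have e1 : sc (A, B) a = v' := adj_sc_A hw.nd h1
    have e2 : sc (A', B) a = v := adj_sc_A hw'.nd h2
    have h3 := (hS v' hv').1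
    rw [pd_of_sc e1] at h3
    rw [pd_of_sc e2]
    exact ⟨hP.mem_iff.2 h3.1, h3.2⟩

theorem perm_sA {α : Type*} (a b c d e : α) : [d, a, c, e, b].Perm [a, b, c, d, e] := by
  classical
  rw [List.perm_iff_count]; intro x; simp only [List.count_cons, List.count_nil]; omega

theorem perm_sB {α : Type*} (a b c d e : α) : [c, e, a, d, b].Perm [a, b, c, d, e] := by
  classical
  rw [List.perm_iff_count]; intro x; simp only [List.count_cons, List.count_nil]; omega

theorem perm_sC {α : Type*} (a b c d e : α) : [d, b, e, a, c].Perm [a, b, c, d, e] := by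
  classical
  rw [List.perm_iff_count]; intro x; simp only [List.count_cons, List.count_nil]; omega

theorem perm_cr {α : Type*} (a b c d e : α) : [b, a, c, e, d].Perm [a, b, c, d, e] := by
  classical
  rw [List.perm_iff_count]; intro x; simp only [List.count_cons, List.count_nil]; omega

theorem perm_ne {α : Type*} (a b c d e : α) : [e, b, a, d, c].Perm [a, b, c, d, e] := by
  classical
  rw [List.perm_iff_count]; intro x; simp only [List.count_cons, List.count_nil]; omega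

theorem UNR0 {c y : Ω} {A B : List Ω} {S : Finset Ω} (hw : WF p (c :: A, B)) (hc : MA p (c :: A, B) c)
    (hBY : NTC.BY p c y B)
    (hS : ∀ t ∈ S, Red p (c :: A, B) t ∧ p t ∈ S ∧ MA p (c :: A, B) (pd (c :: A, B) t) ∧ MA p (c :: A, B) (sc (c :: A, B) t))
    (h38 : 38 ≤ S.card) (hR : NTU.RR (cA p (c :: A, B)) (cB p (c :: A, B))) :
    ∃ t, Pa p 4 (c :: A, B) t ∧ t.2 = B ∧ t.1.Perm (c :: A) ∧ ¬ NA.RR (cA p t) (cB p t) ∧
    (∀ v, Red p (c :: A, B) v → v ∉ S → pd t v = pd (c :: A, B) v) ∧ (∀ v ∈ S, MA p t (pd t v)) := by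
  have hdj : ∀ a, a ∈ c :: A → a ∉ B := fun a ha hb => (List.nodup_append.1 hw.nd).2.2 a ha a hb rfl
  have hnA : (c :: A).Nodup := (List.nodup_append.1 hw.nd).1
  have hvc : ∀ v, Red p (c :: A, B) v → v ≠ c := by
    rintro v hv rfl
    exact hdj _ hv.2 hc.2
  have hSA : ∀ t ∈ S, t ∈ A := by
    intro t ht
    have h1 := (hS t ht).1.1
    rcases List.mem_cons.1 h1 with h2 | h2
    · exact absurd h2 (hvc t (hS t ht).1)
    · exact h2
  obtain ⟨F, hF, hF1, h19⟩ := exF hw.inv hw.ne hSA (fun t ht => (hS t ht).2.1) h38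
  have hFS : ∀ t, (t ∈ F ∨ p t ∈ F) → t ∈ S := by
    rintro t (h | h)
    · exact (hF1 t h).1
    · have := (hS _ (hF1 _ h).1).2.1
      rwa [hw.inv] at this
  let g : Ω → Option Ω := fun x => if p x ∈ B then some x else none
  have hgS : ∀ t ∈ S, g t = none := by
    intro t ht
    exact if_neg (hdj _ (hS t ht).1.2)
  have hgc : g c = some c := if_pos hc.2
  have hcA : ∀ A' : List Ω, cA p (A', B) = A'.filterMap g := fun A' => (fm_red B A').symm
  have hK : cA p (c :: A, B) = [c] ++ A.filterMap g := by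
    rw [hcA, List.filterMap_cons, hgc]
    rfl
  have hsep : ∀ (X Y Z : List Ω) (t t' : Ω), A = X ++ t :: (Y ++ t' :: Z) → (t ∈ F ∨ p t ∈ F) →
      (t' ∈ F ∨ p t' ∈ F) → ∃ x ∈ Y, g x ≠ none := by
    intro X Y Z t t' hA ht ht'
    have h1 := (hS t (hFS t ht)).2.2.2
    cases Y with
    | nil =>
      have h2 : sc (c :: A, B) t = t' := adj_sc_A hw.nd ⟨c :: X, Z, by rw [hA]; simp⟩
      rw [h2] at h1
      exact absurd h1.2 (hdj _ (hS t' (hFS t' ht')).1.2)
    | cons x Y =>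
      have h2 : sc (c :: A, B) t = x := adj_sc_A hw.nd ⟨c :: X, Y ++ t' :: Z, by rw [hA]; simp⟩
      rw [h2] at h1
      exact ⟨x, by simp, by simp [g, h1.2]⟩
  have hun := NTU.unr (p := p) (g := g) (F := F) (K := [c]) (A := A) (b := cB p (c :: A, B)) hw.inv hw.ne (List.nodup_cons.1 hnA).2 hF
    (fun t ht => ⟨hSA t (hF1 t ht).1, hSA _ (hS t (hF1 t ht).1).2.1, (hF1 t ht).2⟩)
    (fun t ht => ⟨hgS t (hF1 t ht).1, hgS _ (hS t (hF1 t ht).1).2.1⟩) hsep (Or.inl (by simp))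
    (by rw [← hK]; exact cA_nodup hw) (by rw [← hK]; exact hR) h19
  obtain ⟨r, s, t, X0, X1, X2, X3, X4, X5, X6, hr, hs, ht, hcase⟩ := hun
  have hr := hFS r hr
  have hs := hFS s hs
  have ht := hFS t ht
  have hpr := (hS r hr).2.1
  have hps := (hS s hs).2.1
  have hpt := (hS t ht).2.1
  have gr := hgS r hr
  have gs := hgS s hs
  have gt := hgS t ht
  have gpr := hgS _ hpr
  have gps := hgS _ hps
  have gpt := hgS _ hpt
  have hSm : ∀ t ∈ S, MA p (c :: A, B) (pd (c :: A, B) t) ∧ Red p (c :: A, B) t := fun t ht => ⟨(hS t ht).2.2.1, (hS t ht).1⟩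
  rcases hcase with ⟨hA, hab, _⟩ | ⟨hA, hab⟩ | ⟨hA, hab⟩
  · have hZ : ∀ Z ∈ [r :: X1, p r :: X2, s :: X3, p s :: X4, t :: X5] ++ [p t :: X6], ∃ v, v ∈ S ∧ ∃ Q, Z = v :: Q := by
      intro Z hZ
      simp only [List.cons_append, List.nil_append, List.mem_cons, List.not_mem_nil, or_false] at hZ
      rcases hZ with rfl | rfl | rfl | rfl | rfl | rfl
      · exact ⟨r, hr, _, rfl⟩
      · exact ⟨p r, hpr, _, rfl⟩
      · exact ⟨s, hs, _, rfl⟩
      · exact ⟨p s, hps, _, rfl⟩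
      · exact ⟨t, ht, _, rfl⟩
      · exact ⟨p t, hpt, _, rfl⟩
    rcases hab with hab | hab
    · have hch := NA.chain_pa (NTC.rrr_sep1 hw.inv c r s t y X0 X1 X2 X3 X4 X5 X6 B hBY)
      refine red_fin (Ys := [r :: X1, p r :: X2, s :: X3, p s :: X4, t :: X5]) (Z6 := p t :: X6) (X0 := X0) (c := c)
        (Ys' := [p s :: X4, r :: X1, s :: X3, t :: X5, p r :: X2])
        (A' := c :: X0 ++ p s :: X4 ++ r :: X1 ++ s :: X3 ++ t :: X5 ++ p r :: X2 ++ p t :: X6) hw hc hSm ?_ ?_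
        (perm_sA _ _ _ _ _) hZ (by rw [hA]; simp) (by simp)
      · have e : (c :: A) = c :: X0 ++ r :: X1 ++ p r :: X2 ++ s :: X3 ++ p s :: X4 ++ t :: X5 ++ p t :: X6 := by rw [hA]; simp
        rw [e]
        exact hch
      · rw [hcA]
        simpa [NTU.sA, hgc, gr, gs, gt, gpr, gps, gpt, List.filterMap_append] using hab
    · have hch := NA.chain_pa (NTC.rrr_sep2 hw.inv c r s t y X0 X1 X2 X3 X4 X5 X6 B hBY)
      refine red_fin (Ys := [r :: X1, p r :: X2, s :: X3, p s :: X4, t :: X5]) (Z6 := p t :: X6) (X0 := X0) (c := c)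
        (Ys' := [s :: X3, t :: X5, r :: X1, p s :: X4, p r :: X2])
        (A' := c :: X0 ++ s :: X3 ++ t :: X5 ++ r :: X1 ++ p s :: X4 ++ p r :: X2 ++ p t :: X6) hw hc hSm ?_ ?_
        (perm_sB _ _ _ _ _) hZ (by rw [hA]; simp) (by simp)
      · have e : (c :: A) = c :: X0 ++ r :: X1 ++ p r :: X2 ++ s :: X3 ++ p s :: X4 ++ t :: X5 ++ p t :: X6 := by rw [hA]; simp
        rw [e]
        exact hch
      · rw [hcA]
        simpa [NTU.sB, hgc, gr, gs, gt, gpr, gps, gpt, List.filterMap_append] using hab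
  · have hZ : ∀ Z ∈ [r :: X1, s :: X2, t :: X3, p r :: X4, p s :: X5] ++ [p t :: X6], ∃ v, v ∈ S ∧ ∃ Q, Z = v :: Q := by
      intro Z hZ
      simp only [List.cons_append, List.nil_append, List.mem_cons, List.not_mem_nil, or_false] at hZ
      rcases hZ with rfl | rfl | rfl | rfl | rfl | rfl
      · exact ⟨r, hr, _, rfl⟩
      · exact ⟨s, hs, _, rfl⟩
      · exact ⟨t, ht, _, rfl⟩
      · exact ⟨p r, hpr, _, rfl⟩
      · exact ⟨p s, hps, _, rfl⟩
      · exact ⟨p t, hpt, _, rfl⟩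
    have hch := NA.chain_pa (NTC.rrr_cross hw.inv c r s t y X0 X1 X2 X3 X4 X5 X6 B hBY)
    refine red_fin (Ys := [r :: X1, s :: X2, t :: X3, p r :: X4, p s :: X5]) (Z6 := p t :: X6) (X0 := X0) (c := c)
      (Ys' := [s :: X2, r :: X1, t :: X3, p s :: X5, p r :: X4])
      (A' := c :: X0 ++ s :: X2 ++ r :: X1 ++ t :: X3 ++ p s :: X5 ++ p r :: X4 ++ p t :: X6) hw hc hSm ?_ ?_
      (perm_cr _ _ _ _ _) hZ (by rw [hA]; simp) (by simp)
    · have e : (c :: A) = c :: X0 ++ r :: X1 ++ s :: X2 ++ t :: X3 ++ p r :: X4 ++ p s :: X5 ++ p t :: X6 := by rw [hA]; simp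
      rw [e]
      exact hch
    · rw [hcA]
      simpa [NTU.cr, hgc, gr, gs, gt, gpr, gps, gpt, List.filterMap_append] using hab
  · have hZ : ∀ Z ∈ [r :: X1, s :: X2, t :: X3, p t :: X4, p s :: X5] ++ [p r :: X6], ∃ v, v ∈ S ∧ ∃ Q, Z = v :: Q := by
      intro Z hZ
      simp only [List.cons_append, List.nil_append, List.mem_cons, List.not_mem_nil, or_false] at hZ
      rcases hZ with rfl | rfl | rfl | rfl | rfl | rfl
      · exact ⟨r, hr, _, rfl⟩
      · exact ⟨s, hs, _, rfl⟩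
      · exact ⟨t, ht, _, rfl⟩
      · exact ⟨p t, hpt, _, rfl⟩
      · exact ⟨p s, hps, _, rfl⟩
      · exact ⟨p r, hpr, _, rfl⟩
    have hch := NA.chain_pa (NTC.rrr_nest hw.inv c r s t y X0 X1 X2 X3 X4 X5 X6 B hBY)
    refine red_fin (Ys := [r :: X1, s :: X2, t :: X3, p t :: X4, p s :: X5]) (Z6 := p r :: X6) (X0 := X0) (c := c)
      (Ys' := [p s :: X5, s :: X2, r :: X1, p t :: X4, t :: X3])
      (A' := c :: X0 ++ p s :: X5 ++ s :: X2 ++ r :: X1 ++ p t :: X4 ++ t :: X3 ++ p r :: X6) hw hc hSm ?_ ?_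
      (perm_ne _ _ _ _ _) hZ (by rw [hA]; simp) (by simp)
    · have e : (c :: A) = c :: X0 ++ r :: X1 ++ s :: X2 ++ t :: X3 ++ p t :: X4 ++ p s :: X5 ++ p r :: X6 := by rw [hA]; simp
      rw [e]
      exact hch
    · rw [hcA]
      simpa [NTU.ne, hgc, gr, gs, gt, gpr, gps, gpt, List.filterMap_append] using hab

omit [DecidableEq Ω] in
/-- a good blue letter in one of the two forms. -/
theorem by_of_good {s : St Ω} (hw : WF p s) {c : Ω} (hc : MA p s c) (hg : Good p s c) : ∃ y, NTC.BY p c y s.2 := by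
  obtain ⟨y, D, E, hB, hy, hpy⟩ := hg
  have hdj : ∀ a, a ∈ s.1 → a ∉ s.2 := fun a ha hb => (List.nodup_append.1 hw.nd).2.2 a ha a hb rfl
  obtain ⟨D1, D2, rfl⟩ := List.append_of_mem hy
  have hyB : y ∈ s.2 := by rw [hB]; simp
  have hpyc : p y ≠ p c := by
    intro h
    have : y = c := by rw [← hw.inv y, h, hw.inv]
    subst this
    exact hdj _ hc.1 hyB
  rw [hB] at hpy
  simp only [List.mem_append, List.mem_cons] at hpy
  have h1 : p y ∈ D1 ∨ p y ∈ D2 ∨ p y ∈ E := by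
    rcases hpy with (h | h | h) | h | h
    · exact Or.inl h
    · exact absurd h (hw.ne y)
    · exact Or.inr (Or.inl h)
    · exact absurd h hpyc
    · exact Or.inr (Or.inr h)
  rcases h1 with h | h | h
  · obtain ⟨D11, D12, rfl⟩ := List.append_of_mem h
    refine ⟨p y, ?_⟩
    have := NTC.BY.b (p := p) (c := c) (y := p y) D11 D12 D2 E
    rw [hw.inv] at this
    rw [hB]
    simpa using this
  · obtain ⟨K1, K2, rfl⟩ := List.append_of_mem h
    refine ⟨y, ?_⟩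
    have := NTC.BY.b (p := p) (c := c) (y := y) D1 K1 K2 E
    rw [hB]
    simpa using this
  · obtain ⟨E1, E2, rfl⟩ := List.append_of_mem h
    refine ⟨y, ?_⟩
    have := NTC.BY.a (p := p) (c := c) (y := y) D1 D2 E1 E2
    rw [hB]
    simpa using this

theorem UNR : UNR_stmt := by
  intro Ω _ p s c S hw hc hg hS h38 hR
  obtain ⟨y, hBY⟩ := by_of_good hw hc hg
  obtain ⟨L1, L2, hL⟩ := List.append_of_mem hc.1
  have hrot : s.1 ~r c :: (L2 ++ L1) := by
    rw [hL]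
    have := List.isRotated_append (l := L1) (l' := c :: L2)
    simpa using this
  obtain ⟨A0, B⟩ := s
  dsimp only at hrot hBY
  have hpa : Pa p 0 (A0, B) (c :: (L2 ++ L1), B) := Pa.rot A0 _ B hrot
  have hw' := hpa.wf hw
  have hsc : sc (c :: (L2 ++ L1), B) = sc (A0, B) := by
    unfold sc
    rw [List.formPerm_eq_of_isRotated (List.nodup_append.1 hw.nd).1 hrot]
  have hpd : ∀ t, pd (c :: (L2 ++ L1), B) t = pd (A0, B) t := by
    intro t
    unfold pd
    rw [hsc]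
  have hmem : ∀ t, t ∈ c :: (L2 ++ L1) ↔ t ∈ A0 := fun t => hrot.perm.mem_iff.symm
  have hRed : ∀ t, Red p (c :: (L2 ++ L1), B) t ↔ Red p (A0, B) t := by
    intro t
    unfold Red
    simp only [hmem]
  have hMA : ∀ t, MA p (c :: (L2 ++ L1), B) t ↔ MA p (A0, B) t := by
    intro t
    unfold MA
    simp only [hmem]
  have hcB : cB p (c :: (L2 ++ L1), B) = cB p (A0, B) := cB_congr hrot.perm.symm
  have hcA : cA p (c :: (L2 ++ L1), B) ~r cA p (A0, B) := by
    unfold cA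
    rw [← fm_red, ← fm_red]
    exact NTU.rotated_filterMap _ hrot.symm
  have hR' : NTU.RR (cA p (c :: (L2 ++ L1), B)) (cB p (c :: (L2 ++ L1), B)) := by
    rw [hcB]
    exact (ntu_rr hR (cA_nodup hw) (cB_nodup hw)).rotl hcA
  obtain ⟨t, h1, h2, h3, h4, h5, h6⟩ := UNR0 hw' ((hMA c).2 hc) hBY
    (fun t ht => by
      obtain ⟨q1, q2, q3, q4⟩ := hS t ht
      rw [hRed, hMA, hMA, hpd, hsc]
      exact ⟨q1, q2, q3, q4⟩) h38 hR'
  refine ⟨t, ?_, h2, h3.trans hrot.perm.symm, h4, ?_, h6⟩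
  · have := hpa.trans h1
    simpa using this
  · intro v hv hvS
    rw [h5 v ((hRed v).2 hv) hvS, hpd]

/-! ## blue -/

theorem blue_fin {h : Ω} {X0 Z6 A B B' : List Ω} {Ys Ys' : List (List Ω)} {S : Finset Ω} (hw : WF p (A, B))
    (hh : MB p (A, B) h) (hS : ∀ t ∈ S, MB p (A, B) (pd (A, B) t) ∧ Blu p (A, B) t)
    (hpa : Pa p 4 (A, B) (A, B')) (hcore : ¬ NTU.RR (cB p (A, B')) (cA p (A, B))) (hY : Ys'.Perm Ys)
    (hZ : ∀ Z ∈ Ys ++ [Z6], ∃ v, v ∈ S ∧ ∃ Q, Z = v :: Q) (hB : B = h :: X0 ++ Ys.flatten ++ Z6)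
    (hB' : B' = h :: X0 ++ Ys'.flatten ++ Z6) :
    ∃ t, Pa p 4 (A, B) t ∧ t.1 = A ∧ t.2.Perm B ∧ ¬ NA.RR (cA p t) (cB p t) ∧
    (∀ v, Blu p (A, B) v → v ∉ S → pd t v = pd (A, B) v) ∧ (∀ v ∈ S, MB p t (pd t v)) ∧
    (∀ k, t.2.head? = some k → MB p t k) := by
  obtain ⟨hP, hb⟩ := blk (S := fun v => v ∈ S) hY hZ hB hB'
  have hw' : WF p (A, B') := hpa.wf hw
  have hdj : ∀ a, a ∈ A → a ∉ B := fun a ha hb => (List.nodup_append.1 hw.nd).2.2 a ha a hb rfl
  have hvc : ∀ v, Blu p (A, B) v → v ≠ h := by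
    rintro v hv rfl
    exact hdj _ hh.2 hv.2
  refine ⟨(A, B'), hpa, rfl, hP, ?_, ?_, ?_, ?_⟩
  · intro h
    have h1 := ntu_rr h (cA_nodup hw') (cB_nodup hw')
    rw [cA_congr hP] at h1
    exact hcore h1.symm
  · intro v hv hvS
    obtain ⟨a, h1, h2⟩ := (hb v hv.1 (hvc v hv)).1 hvS
    have e1 : sc (A, B) a = v := adj_sc_B hw.nd h1
    have e2 : sc (A, B') a = v := adj_sc_B hw'.nd h2
    rw [pd_of_sc e1, pd_of_sc e2]
  · intro v hvS
    obtain ⟨a, v', hv', h2, h1⟩ := (hb v (hS v hvS).2.1 (hvc v (hS v hvS).2)).2 hvS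
    have e1 : sc (A, B) a = v' := adj_sc_B hw.nd h1
    have e2 : sc (A, B') a = v := adj_sc_B hw'.nd h2
    have h3 := (hS v' hv').1
    rw [pd_of_sc e1] at h3
    rw [pd_of_sc e2]
    exact ⟨hP.mem_iff.2 h3.1, h3.2⟩
  · intro k hk
    rw [hB'] at hk
    simp only [List.cons_append, List.head?_cons, Option.some.injEq] at hk
    subst hk
    exact ⟨hP.mem_iff.2 hh.1, hh.2⟩

omit [DecidableEq Ω] in
/-- `A` from the mixed token `c`. -/
theorem rotA {s : St Ω} (hw : WF p s) {x c : Ω} (hx : Red p s x) (hc : MA p s c) :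
    ∃ (x' : Ω) (P Q R : List Ω), s.1 ~r c :: P ++ x' :: Q ++ p x' :: R := by
  have hdj : ∀ a, a ∈ s.1 → a ∉ s.2 := fun a ha hb => (List.nodup_append.1 hw.nd).2.2 a ha a hb rfl
  obtain ⟨L1, L2, hL⟩ := List.append_of_mem hc.1
  have hrot : s.1 ~r c :: (L2 ++ L1) := by
    rw [hL]
    have := List.isRotated_append (l := L1) (l' := c :: L2)
    simpa using this
  have h1 : x ∈ L2 ++ L1 := by
    rcases List.mem_cons.1 (hrot.perm.mem_iff.1 hx.1) with h | h
    · subst h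
      exact absurd hc.2 (hdj _ hx.2)
    · exact h
  have h2 : p x ∈ L2 ++ L1 := by
    rcases List.mem_cons.1 (hrot.perm.mem_iff.1 hx.2) with h | h
    · rw [← h] at hc
      have := hc.2
      rw [hw.inv] at this
      exact absurd this (hdj _ hx.1)
    · exact h
  generalize L2 ++ L1 = L at hrot h1 h2
  obtain ⟨M1, M2, rfl⟩ := List.append_of_mem h1
  simp only [List.mem_append, List.mem_cons] at h2
  rcases h2 with h | h | h
  · obtain ⟨P, Q, rfl⟩ := List.append_of_mem h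
    refine ⟨p x, P, Q, M2, ?_⟩
    rw [hw.inv]
    simpa using hrot
  · exact absurd h (hw.ne x)
  · obtain ⟨Q, R, rfl⟩ := List.append_of_mem h
    exact ⟨x, M1, Q, R, by simpa using hrot⟩

theorem blue_move {A B B' : List Ω} (hw : WF p (A, B)) {x c : Ω} (hx : Red p (A, B) x) (hc : MA p (A, B) c)
    (hch : ∀ (x : Ω) (P Q R : List Ω), NTS.Chain p 4 (c :: P ++ x :: Q ++ p x :: R, B) (c :: P ++ x :: Q ++ p x :: R, B')) :
    Pa p 4 (A, B) (A, B') := by
  obtain ⟨x', P, Q, R, h⟩ := rotA hw hx hc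
  have h1 : Pa p 0 (A, B) (c :: P ++ x' :: Q ++ p x' :: R, B) := Pa.rot A _ B h
  have h2 := NA.chain_pa (hch x' P Q R)
  have h3 : Pa p 0 (c :: P ++ x' :: Q ++ p x' :: R, B') (A, B') := Pa.rot _ A B' h.symm
  have h4 := (h1.trans h2).trans h3
  simpa using h4

theorem UNB0 {A B : List Ω} {x f : Ω} {S : Finset Ω} (hw : WF p (A, B)) (hx : Red p (A, B) x)
    (hS : ∀ t ∈ S, Blu p (A, B) t ∧ p t ∈ S ∧ MB p (A, B) (pd (A, B) t) ∧ MB p (A, B) (sc (A, B) t))
    (hf : B.getLast? = some f) (hfS : f ∉ S) (hhd : ∀ h, B.head? = some h → MB p (A, B) h)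
    (h38 : 38 ≤ S.card) (hR : NTU.RR (cB p (A, B)) (cA p (A, B))) :
    ∃ t, Pa p 4 (A, B) t ∧ t.1 = A ∧ t.2.Perm B ∧ ¬ NA.RR (cA p t) (cB p t) ∧
    (∀ v, Blu p (A, B) v → v ∉ S → pd t v = pd (A, B) v) ∧ (∀ v ∈ S, MB p t (pd t v)) ∧
    (∀ k, t.2.head? = some k → MB p t k) := by
  have hdj : ∀ a, a ∈ A → a ∉ B := fun a ha hb => (List.nodup_append.1 hw.nd).2.2 a ha a hb rfl
  have hnB : B.Nodup := (List.nodup_append.1 hw.nd).2.1
  have hSB : ∀ t ∈ S, t ∈ B := fun t ht => (hS t ht).1.1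
  obtain ⟨F, hF, hF1, h19⟩ := exF hw.inv hw.ne hSB (fun t ht => (hS t ht).2.1) h38
  have hFS : ∀ t, (t ∈ F ∨ p t ∈ F) → t ∈ S := by
    rintro t (h | h)
    · exact (hF1 t h).1
    · have := (hS _ (hF1 _ h).1).2.1
      rwa [hw.inv] at this
  let g : Ω → Option Ω := fun x => if p x ∈ A then some (p x) else none
  have hgS : ∀ t ∈ S, g t = none := by
    intro t ht
    exact if_neg (fun h => hdj _ h (hS t ht).1.2)
  have hg1 : ∀ e, g e ≠ none → p e ∈ A := by
    intro e he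
    by_contra h
    exact he (if_neg h)
  have hcB : ∀ B' : List Ω, cB p (A, B') = B'.filterMap g := fun B' => (fm_blue A B').symm
  have hsep : ∀ (X Y Z : List Ω) (t t' : Ω), B = X ++ t :: (Y ++ t' :: Z) → t ∈ S → t' ∈ S → ∃ x ∈ Y, g x ≠ none := by
    intro X Y Z t t' hB ht ht'
    have h1 := (hS t ht).2.2.2
    cases Y with
    | nil =>
      have h2 : sc (A, B) t = t' := adj_sc_B hw.nd ⟨X, Z, by rw [hB]; simp⟩
      rw [h2] at h1
      exact absurd (hS t' ht').1.2 (hdj _ h1.2)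
    | cons x Y =>
      have h2 : sc (A, B) t = x := adj_sc_B hw.nd ⟨X, Y ++ t' :: Z, by rw [hB]; simp⟩
      rw [h2] at h1
      exact ⟨x, by simp, by simp [g, h1.2]⟩
  have hout : ∀ (X Y : List Ω) (t : Ω), B = X ++ t :: Y → t ∈ S → ∃ x ∈ Y, g x ≠ none := by
    intro X Y t hB ht
    have h1 := (hS t ht).2.2.2
    cases Y with
    | nil =>
      rw [hB] at hf
      simp only [List.getLast?_append, List.getLast?_singleton, Option.some_or, Option.some.injEq] at hf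
      subst hf
      exact absurd ht hfS
    | cons x Y =>
      have h2 : sc (A, B) t = x := adj_sc_B hw.nd ⟨X, Y, by rw [hB]⟩
      rw [h2] at h1
      exact ⟨x, by simp, by simp [g, h1.2]⟩
  have hun := NTU.unr (p := p) (g := g) (F := F) (K := []) (A := B) (b := cA p (A, B)) hw.inv hw.ne hnB hF
    (fun t ht => ⟨hSB t (hF1 t ht).1, hSB _ (hS t (hF1 t ht).1).2.1, (hF1 t ht).2⟩)
    (fun t ht => ⟨hgS t (hF1 t ht).1, hgS _ (hS t (hF1 t ht).1).2.1⟩)
    (fun X Y Z t t' h1 h2 h3 => hsep X Y Z t t' h1 (hFS t h2) (hFS t' h3))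
    (Or.inr fun X Y t h1 h2 => hout X Y t h1 (hFS t h2))
    (by rw [List.nil_append, ← hcB]; exact cB_nodup hw) (by rw [List.nil_append, ← hcB]; exact hR) h19
  obtain ⟨r, s, t, X0, X1, X2, X3, X4, X5, X6, hr, hs, ht, hcase⟩ := hun
  have hr := hFS r hr
  have hs := hFS s hs
  have ht := hFS t ht
  have hpr := (hS r hr).2.1
  have hps := (hS s hs).2.1
  have hpt := (hS t ht).2.1
  have gr := hgS r hr
  have gs := hgS s hs
  have gt := hgS t ht
  have gpr := hgS _ hpr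
  have gps := hgS _ hps
  have gpt := hgS _ hpt
  have hSm : ∀ t ∈ S, MB p (A, B) (pd (A, B) t) ∧ Blu p (A, B) t := fun t ht => ⟨(hS t ht).2.2.1, (hS t ht).1⟩
  have hX0 : ∀ L, B = X0 ++ r :: L → ∃ h X0', X0 = h :: X0' ∧ MB p (A, B) h := by
    intro L hB
    cases X0 with
    | nil =>
      have h1 := hhd r (by rw [hB]; simp)
      exact absurd (hS r hr).1.2 (hdj _ h1.2)
    | cons h X0' => exact ⟨h, X0', rfl, hhd h (by rw [hB]; simp)⟩
  have hmk : ∀ e, e ∈ B → g e ≠ none → MA p (A, B) (p e) := by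
    intro e he he'
    refine ⟨hg1 e he', ?_⟩
    rw [hw.inv]
    exact he
  rcases hcase with ⟨hB, _, hab⟩ | ⟨hB, hab⟩ | ⟨hB, hab⟩
  · have hZ : ∀ Z ∈ [r :: X1, p r :: X2, s :: X3, p s :: X4, t :: X5] ++ [p t :: X6], ∃ v, v ∈ S ∧ ∃ Q, Z = v :: Q := by
      intro Z hZ
      simp only [List.cons_append, List.nil_append, List.mem_cons, List.not_mem_nil, or_false] at hZ
      rcases hZ with rfl | rfl | rfl | rfl | rfl | rfl
      · exact ⟨r, hr, _, rfl⟩
      · exact ⟨p r, hpr, _, rfl⟩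
      · exact ⟨s, hs, _, rfl⟩
      · exact ⟨p s, hps, _, rfl⟩
      · exact ⟨t, ht, _, rfl⟩
      · exact ⟨p t, hpt, _, rfl⟩
    obtain ⟨h, X0', rfl, hh⟩ := hX0 _ hB
    obtain ⟨e, he, hge⟩ := hout (h :: X0' ++ r :: X1 ++ p r :: X2 ++ s :: X3 ++ p s :: X4 ++ t :: X5) X6 (p t)
      (by rw [hB]; simp) hpt
    obtain ⟨U, V, rfl⟩ := List.append_of_mem he
    have hc := hmk e (by rw [hB]; simp) hge
    rcases hab with hab | hab
    · refine blue_fin (Ys := [r :: X1, p r :: X2, s :: X3, p s :: X4, t :: X5]) (Z6 := p t :: (U ++ e :: V)) (X0 := X0') (h := h)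
        (Ys' := [p s :: X4, r :: X1, s :: X3, t :: X5, p r :: X2])
        (B' := h :: X0' ++ p s :: X4 ++ r :: X1 ++ s :: X3 ++ t :: X5 ++ p r :: X2 ++ p t :: (U ++ e :: V)) hw hh hSm ?_ ?_
        (perm_sA _ _ _ _ _) hZ (by rw [hB]; simp) (by simp)
      · refine blue_move hw hx hc fun x P Q R => ?_
        have h1 := NTC.bbb_sep2 hw.inv (p e) x r s t P Q R (h :: X0') X1 X2 X3 X4 X5 U V
        rw [hw.inv e] at h1
        rw [hB]
        simpa using h1
      · rw [hcB]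
        simpa [NTU.sA, gr, gs, gt, gpr, gps, gpt, List.filterMap_append, List.filterMap_cons] using hab
    · refine blue_fin (Ys := [r :: X1, p r :: X2, s :: X3, p s :: X4, t :: X5]) (Z6 := p t :: (U ++ e :: V)) (X0 := X0') (h := h)
        (Ys' := [p s :: X4, p r :: X2, t :: X5, r :: X1, s :: X3])
        (B' := h :: X0' ++ p s :: X4 ++ p r :: X2 ++ t :: X5 ++ r :: X1 ++ s :: X3 ++ p t :: (U ++ e :: V)) hw hh hSm ?_ ?_
        (perm_sC _ _ _ _ _) hZ (by rw [hB]; simp) (by simp)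
      · refine blue_move hw hx hc fun x P Q R => ?_
        have h1 := NTC.bbb_sep1 hw.inv (p e) x r s t P Q R (h :: X0') X1 X2 X3 X4 X5 U V
        rw [hw.inv e] at h1
        rw [hB]
        simpa using h1
      · rw [hcB]
        simpa [NTU.sC, gr, gs, gt, gpr, gps, gpt, List.filterMap_append, List.filterMap_cons] using hab
  · have hZ : ∀ Z ∈ [r :: X1, s :: X2, t :: X3, p r :: X4, p s :: X5] ++ [p t :: X6], ∃ v, v ∈ S ∧ ∃ Q, Z = v :: Q := by
      intro Z hZ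
      simp only [List.cons_append, List.nil_append, List.mem_cons, List.not_mem_nil, or_false] at hZ
      rcases hZ with rfl | rfl | rfl | rfl | rfl | rfl
      · exact ⟨r, hr, _, rfl⟩
      · exact ⟨s, hs, _, rfl⟩
      · exact ⟨t, ht, _, rfl⟩
      · exact ⟨p r, hpr, _, rfl⟩
      · exact ⟨p s, hps, _, rfl⟩
      · exact ⟨p t, hpt, _, rfl⟩
    obtain ⟨h, X0', rfl, hh⟩ := hX0 _ hB
    obtain ⟨e, he, hge⟩ := hout (h :: X0' ++ r :: X1 ++ s :: X2 ++ t :: X3 ++ p r :: X4 ++ p s :: X5) X6 (p t)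
      (by rw [hB]; simp) hpt
    obtain ⟨U, V, rfl⟩ := List.append_of_mem he
    have hc := hmk e (by rw [hB]; simp) hge
    refine blue_fin (Ys := [r :: X1, s :: X2, t :: X3, p r :: X4, p s :: X5]) (Z6 := p t :: (U ++ e :: V)) (X0 := X0') (h := h)
      (Ys' := [s :: X2, r :: X1, t :: X3, p s :: X5, p r :: X4])
      (B' := h :: X0' ++ s :: X2 ++ r :: X1 ++ t :: X3 ++ p s :: X5 ++ p r :: X4 ++ p t :: (U ++ e :: V)) hw hh hSm ?_ ?_
      (perm_cr _ _ _ _ _) hZ (by rw [hB]; simp) (by simp)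
    · refine blue_move hw hx hc fun x P Q R => ?_
      have h1 := NTC.bbb_cross hw.inv (p e) x r s t P Q R (h :: X0') X1 X2 X3 X4 X5 U V
      rw [hw.inv e] at h1
      rw [hB]
      simpa using h1
    · rw [hcB]
      simpa [NTU.cr, gr, gs, gt, gpr, gps, gpt, List.filterMap_append, List.filterMap_cons] using hab
  · have hZ : ∀ Z ∈ [r :: X1, s :: X2, t :: X3, p t :: X4, p s :: X5] ++ [p r :: X6], ∃ v, v ∈ S ∧ ∃ Q, Z = v :: Q := by
      intro Z hZ
      simp only [List.cons_append, List.nil_append, List.mem_cons, List.not_mem_nil, or_false] at hZ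
      rcases hZ with rfl | rfl | rfl | rfl | rfl | rfl
      · exact ⟨r, hr, _, rfl⟩
      · exact ⟨s, hs, _, rfl⟩
      · exact ⟨t, ht, _, rfl⟩
      · exact ⟨p t, hpt, _, rfl⟩
      · exact ⟨p s, hps, _, rfl⟩
      · exact ⟨p r, hpr, _, rfl⟩
    obtain ⟨h, X0', rfl, hh⟩ := hX0 _ hB
    obtain ⟨e, he, hge⟩ := hsep (h :: X0' ++ r :: X1 ++ s :: X2) X3 (X4 ++ p s :: (X5 ++ p r :: X6)) t (p t)
      (by rw [hB]; simp) ht hpt
    obtain ⟨U, V, rfl⟩ := List.append_of_mem he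
    have hc := hmk e (by rw [hB]; simp) hge
    refine blue_fin (Ys := [r :: X1, s :: X2, t :: (U ++ e :: V), p t :: X4, p s :: X5]) (Z6 := p r :: X6) (X0 := X0') (h := h)
      (Ys' := [p s :: X5, s :: X2, r :: X1, p t :: X4, t :: (U ++ e :: V)])
      (B' := h :: X0' ++ p s :: X5 ++ s :: X2 ++ r :: X1 ++ p t :: X4 ++ t :: (U ++ e :: V) ++ p r :: X6) hw hh hSm ?_ ?_
      (perm_ne _ _ _ _ _) hZ (by rw [hB]; simp) (by simp)
    · refine blue_move hw hx hc fun x P Q R => ?_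
      have h1 := NTC.bbb_nest hw.inv (p e) x r s t P Q R (h :: X0') X1 X2 U X4 X5 X6 V
      rw [hw.inv e] at h1
      rw [hB]
      simpa using h1
    · rw [hcB]
      simpa [NTU.ne, gr, gs, gt, gpr, gps, gpt, List.filterMap_append, List.filterMap_cons] using hab

theorem UNB : UNB_stmt := by
  intro Ω _ p s x f S hw hx hS hf hfS hhd h38 hR
  obtain ⟨A, B⟩ := s
  exact UNB0 hw hx hS hf hfS hhd h38 (ntu_rr hR (cA_nodup hw) (cB_nodup hw)).symm

end NAW
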